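import Pool.Agent.P8H80.QN.Stm
import Pool.Agent.Helper654.PtakN

/-!
Package VN of project QN (helper80): von Neumann's inequality.
-/

set_option autoImplicit false

open Polynomial Filter Topology

namespace Pool.Agent.P8H67.QN

open Pool.Agent.P8H80.QN (E)

theorem aeval_apply {n : ℕ} (T : E n →L[ℂ] E n) (p : ℂ[X]) (x : E n) :
    (aeval T p) x = (aeval (T : E n →ₗ[ℂ] E n) p) x := by
  induction p using Polynomial.induction_on' with
  | add p q hp hq =>
    rw [map_add, map_add, LinearMap.add_apply, ← hp, ← hq]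
    rfl
  | monomial k a =>
    rw [aeval_monomial, aeval_monomial]
    have h : ∀ (k : ℕ) (y : E n), (T ^ k) y = ((T : E n →ₗ[ℂ] E n) ^ k) y := by
      intro k
      induction k with
      | zero => intro y; rfl
      | succ k ih =>
        intro y
        rw [pow_succ, pow_succ, Module.End.mul_apply, ← ih]
        rfl
    rw [Module.End.mul_apply, ← h]
    rfl

theorem vn : Pool.Agent.P8H80.QN.S_VN := by
  intro n T l R hn hR hT p K hp
  obtain ⟨S, hS⟩ : ∃ S : E n →L[ℂ] E n, S = (R : ℂ)⁻¹ • (T - l • 1) := ⟨_, rfl⟩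
  have hRc : (R : ℂ) ≠ 0 := by exact_mod_cast hR.ne'
  have hSn : ∀ z, ‖S z‖ ≤ ‖z‖ := by
    intro z
    rw [hS]
    show ‖(R : ℂ)⁻¹ • (T z - l • z)‖ ≤ ‖z‖
    rw [norm_smul, norm_inv, Complex.norm_real, Real.norm_eq_abs, abs_of_pos hR,
      inv_mul_le_iff₀ hR]
    exact hT z
  have hTS : T = (R : ℂ) • S + l • 1 := by
    rw [hS, smul_smul, mul_inv_cancel₀ hRc, one_smul]
    abel
  obtain ⟨F, hF⟩ : ∃ F : ℂ[X], F = p.comp (C (R : ℂ) * X + C l) := ⟨_, rfl⟩
  have hFT : aeval S F = aeval T p := by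
    rw [hF, aeval_comp, hTS]
    congr 1
    rw [map_add, map_mul, aeval_C, aeval_C, aeval_X, Algebra.algebraMap_eq_smul_one,
      Algebra.algebraMap_eq_smul_one, smul_mul_assoc, one_mul]
  have hFb : ∀ ζ : ℂ, ‖ζ‖ = 1 → ‖F.eval ζ‖ ≤ K := by
    intro ζ hζ
    rw [hF, eval_comp]
    apply hp
    simp only [eval_add, eval_mul, eval_C, eval_X, add_sub_cancel_right]
    rw [norm_mul, hζ, mul_one, Complex.norm_real, Real.norm_eq_abs, abs_of_pos hR]
  have key : ∀ t : ℝ, 0 < t → t < 1 → ‖aeval ((t : ℂ) • S) F‖ ≤ K := by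
    intro t ht0 ht1
    obtain ⟨B, hB⟩ : ∃ B : E n →L[ℂ] E n, B = (t : ℂ) • S := ⟨_, rfl⟩
    have hBn : ∀ z, ‖B z‖ ≤ t * ‖z‖ := by
      intro z
      rw [hB]
      show ‖(t : ℂ) • S z‖ ≤ t * ‖z‖
      rw [norm_smul, Complex.norm_real, Real.norm_eq_abs, abs_of_pos ht0]
      exact mul_le_mul_of_nonneg_left (hSn z) ht0.le
    rw [← hB]
    obtain ⟨A, hA⟩ : ∃ A : E n →ₗ[ℂ] E n, A = (B : E n →ₗ[ℂ] E n) := ⟨_, rfl⟩
    obtain ⟨L, hL⟩ : ∃ L : List ℂ, L = (minpoly ℂ A).roots.toList := ⟨_, rfl⟩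
    have hprod : (L.map fun a => X - C a).prod = minpoly ℂ A := by
      have hm : (minpoly ℂ A).Monic := minpoly.monic (Algebra.IsIntegral.isIntegral A)
      have h1 := (IsAlgClosed.splits (minpoly ℂ A)).eq_prod_roots_of_monic hm
      rw [hL]
      conv_rhs => rw [h1]
      conv_rhs => rw [← Multiset.coe_toList (minpoly ℂ A).roots]
      rw [Multiset.map_coe, Multiset.prod_coe]
    have hroot : ∀ a ∈ L, ‖a‖ ≤ t := by
      intro a ha
      rw [hL, Multiset.mem_toList] at ha
      have h1 : (minpoly ℂ A).IsRoot a := isRoot_of_mem_roots ha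
      obtain ⟨v, hv⟩ := (Module.End.hasEigenvalue_of_isRoot h1).exists_hasEigenvector
      have h2 := hBn v
      have h3 : B v = a • v := by
        have := hv.apply_eq_smul
        rw [hA] at this
        exact this
      rw [h3, norm_smul] at h2
      exact le_of_mul_le_mul_right h2 (norm_pos_iff.2 hv.2)
    refine Pool.Agent.Helper654.Ptak.vN_gen (m := L.length) ht0 ht1 B ?_
      (Fin.cons 0 fun i : Fin L.length => L[i.1]) ?_ ?_ F K hFb
    · apply ContinuousLinearMap.opNorm_le_bound _ zero_le_one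
      intro z
      exact (hBn z).trans (mul_le_mul_of_nonneg_right ht1.le (norm_nonneg _))
    · intro j
      refine Fin.cases ?_ (fun i => ?_) j
      · simpa using ht0.le
      · rw [Fin.cons_succ]
        exact hroot _ (List.getElem_mem _)
    · rw [Fin.prod_univ_succ]
      simp only [Fin.cons_zero, Fin.cons_succ]
      rw [Fin.prod_univ_fun_getElem L fun a => X - C a, hprod]
      ext1 x
      rw [aeval_apply, ← hA, map_mul, minpoly.aeval, mul_zero]
      rfl
  have hcont : Continuous fun t : ℝ => ‖aeval ((t : ℂ) • S) F‖ := by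
    refine continuous_norm.comp ?_
    refine (Polynomial.continuous_aeval F).comp ?_
    exact (Complex.continuous_ofReal).smul continuous_const
  have hlim : Tendsto (fun t : ℝ => ‖aeval ((t : ℂ) • S) F‖) (𝓝[<] 1)
      (𝓝 ‖aeval (((1 : ℝ) : ℂ) • S) F‖) := (hcont.tendsto 1).mono_left nhdsWithin_le_nhds
  have hev : ∀ᶠ t : ℝ in 𝓝[<] 1, ‖aeval ((t : ℂ) • S) F‖ ≤ K := by
    filter_upwards [Ioo_mem_nhdsLT (zero_lt_one (α := ℝ))] with t ht
    exact key t ht.1 ht.2
  have h := le_of_tendsto hlim hev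
  rw [Complex.ofReal_one, one_smul, hFT] at h
  exact h

end Pool.Agent.P8H67.QN
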